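import Mathlib

open MvPolynomial

namespace Pool.Agent.Results.MP_8481ed_ag.SquareGrid

variable {k : Type*} [Field k] {r : ℕ}

/-- The homogeneous ideal in `k[x₀,x₁,x₂]` of the point of `P²` with homogeneous coordinates `q`. -/
noncomputable def pointIdeal (q : Fin 3 → k) : Ideal (MvPolynomial (Fin 3) k) :=
  Ideal.span (Set.range fun ij : Fin 3 × Fin 3 => C (q ij.1) * X ij.2 - C (q ij.2) * X ij.1)

/-- The vectors `p i` are homogeneous coordinates of `r` distinct points of `P²`. -/
def DistinctPoints (p : Fin r → Fin 3 → k) : Prop :=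
  (∀ i, p i ≠ 0) ∧ ∀ i j, i ≠ j → ∀ c : k, p i ≠ c • p j

/-- Divisor classes on the blow-up of `P²` at `r` points: `(d, m)` stands for `dH - ∑ mᵢEᵢ`. -/
abbrev Cls (r : ℕ) : Type := ℤ × (Fin r → ℤ)

/-- The intersection number of two divisor classes. -/
def inter (D D' : Cls r) : ℤ := D.1 * D'.1 - ∑ i, D.2 i * D'.2 i

/-- The canonical class `K = -3H + ∑ Eᵢ`. -/
def canon (r : ℕ) : Cls r := (-3, fun _ => -1)

/-- `H⁰(X, O_X(dH - ∑ mᵢEᵢ))`: the forms of degree `d` with multiplicity at least `max(mᵢ, 0)`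
at the `i`-th point. -/
noncomputable def H0 (p : Fin r → Fin 3 → k) (D : Cls r) : Submodule k (MvPolynomial (Fin 3) k) :=
  if 0 ≤ D.1 then
    homogeneousSubmodule (Fin 3) k D.1.toNat ⊓
      ⨅ i, ((pointIdeal (p i)) ^ (D.2 i).toNat).restrictScalars k
  else ⊥

/-- `h⁰(D)`. -/
noncomputable def h0 (p : Fin r → Fin 3 → k) (D : Cls r) : ℤ := Module.finrank k (H0 p D)

/-- The Euler characteristic `χ(D) = 1 + D·(D - K)/2`. -/
def chi (D : Cls r) : ℤ := 1 + inter D (D - canon r) / 2

/-- `h¹(D) = h⁰(D) + h⁰(K - D) - χ(D)` (Riemann-Roch and Serre duality). -/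
noncomputable def h1 (p : Fin r → Fin 3 → k) (D : Cls r) : ℤ :=
  h0 p D + h0 p (canon r - D) - chi D

/-- `D` is special: effective (`h⁰(D) > 0`) and `h¹(D) > 0`. -/
def Special (p : Fin r → Fin 3 → k) (D : Cls r) : Prop := 0 < h0 p D ∧ 0 < h1 p D

lemma lin0_mem (q : Fin 3 → k) (h : q 2 = 1) : X 0 - C (q 0) * X 2 ∈ pointIdeal q := by
  have : (X 0 - C (q 0) * X 2 : MvPolynomial (Fin 3) k) =
      (fun ij : Fin 3 × Fin 3 => C (q ij.1) * X ij.2 - C (q ij.2) * X ij.1) (2, 0) := by
    simp [h]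
  rw [this]
  exact Ideal.subset_span ⟨_, rfl⟩

lemma lin1_mem (q : Fin 3 → k) (h : q 2 = 1) : X 1 - C (q 1) * X 2 ∈ pointIdeal q := by
  have : (X 1 - C (q 1) * X 2 : MvPolynomial (Fin 3) k) =
      (fun ij : Fin 3 × Fin 3 => C (q ij.1) * X ij.2 - C (q ij.2) * X ij.1) (2, 1) := by
    simp [h]
  rw [this]
  exact Ideal.subset_span ⟨_, rfl⟩

/-! ### Dimension count -/

section Count

/-- translation moving `(u, v, 1)` to `(0, 0, 1)` -/
noncomputable def trans (u v : k) : MvPolynomial (Fin 3) k →ₐ[k] MvPolynomial (Fin 3) k :=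
  aeval ![X 0 + C u * X 2, X 1 + C v * X 2, X 2]

lemma trans_neg (u v : k) (F : MvPolynomial (Fin 3) k) : trans (-u) (-v) (trans u v F) = F := by
  have : (trans (-u) (-v)).comp (trans u v) = AlgHom.id k (MvPolynomial (Fin 3) k) := by
    apply MvPolynomial.algHom_ext
    intro i
    fin_cases i <;> simp [trans]
  exact DFunLike.congr_fun this F

lemma trans_hom (u v : k) {F : MvPolynomial (Fin 3) k} {n : ℕ} (hF : F.IsHomogeneous n) :
    (trans u v F).IsHomogeneous n := by
  have := hF.aeval (n := 1) ![X 0 + C u * X 2, X 1 + C v * X 2, (X 2 : MvPolynomial (Fin 3) k)] ?_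
  · rw [one_mul] at this
    exact this
  · intro i
    fin_cases i
    · exact (isHomogeneous_X _ _).add (isHomogeneous_C_mul_X _ _)
    · exact (isHomogeneous_X _ _).add (isHomogeneous_C_mul_X _ _)
    · exact isHomogeneous_X _ _

/-- exponent vector -/
noncomputable def ex (a b c : ℕ) : Fin 3 →₀ ℕ :=
  Finsupp.single 0 a + Finsupp.single 1 b + Finsupp.single 2 c

lemma ex_apply (a b c : ℕ) : (ex a b c) 0 = a ∧ (ex a b c) 1 = b ∧ (ex a b c) 2 = c := by
  simp [ex]

lemma mem_pow_of_coeff (u v : k) {F : MvPolynomial (Fin 3) k} {n a : ℕ} (hF : F.IsHomogeneous n)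
    (h : ∀ i j : ℕ, j ≤ i → i < a → coeff (ex j (i - j) (n - i)) (trans u v F) = 0) :
    F ∈ pointIdeal ![u, v, 1] ^ a := by
  classical
  have hT := trans_hom u v hF
  rw [← trans_neg u v F, (trans u v F).as_sum, map_sum]
  apply Ideal.sum_mem
  intro s hs
  have hdeg : s 0 + s 1 + s 2 = n := by
    have := hT (mem_support_iff.1 hs)
    rw [Finsupp.weight_apply, Finsupp.sum_fintype _ _ (by simp)] at this
    simp [Fin.sum_univ_three] at this
    exact this
  have hge : a ≤ s 0 + s 1 := by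
    by_contra hlt
    push Not at hlt
    have := h (s 0 + s 1) (s 0) (by omega) hlt
    have hs' : ex (s 0) (s 0 + s 1 - s 0) (n - (s 0 + s 1)) = s := by
      ext i
      have := ex_apply (s 0) (s 0 + s 1 - s 0) (n - (s 0 + s 1))
      fin_cases i
      · exact this.1
      · exact this.2.1.trans (by simp)
      · exact this.2.2.trans (by simp; omega)
    rw [hs'] at this
    exact (mem_support_iff.1 hs) this
  have h0 := lin0_mem ![u, v, 1] (by simp)
  have h1 := lin1_mem ![u, v, 1] (by simp)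
  simp only [Matrix.cons_val_zero, Matrix.cons_val_one] at h0 h1
  rw [trans, aeval_monomial, Finsupp.prod_fintype _ _ (by simp)]
  simp only [Fin.prod_univ_three, Matrix.cons_val_zero, Matrix.cons_val_one, Matrix.cons_val]
  apply Ideal.mul_mem_left
  apply Ideal.mul_mem_right
  apply Ideal.pow_le_pow_right hge
  rw [pow_add]
  apply Ideal.mul_mem_mul
  · apply Ideal.pow_mem_pow
    convert h0 using 1
    simp [sub_eq_add_neg]
  · apply Ideal.pow_mem_pow
    convert h1 using 1
    simp [sub_eq_add_neg]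

/-- index set of size `a(a+1)/2` -/
abbrev Idx (a : ℕ) : Type := Σ i : Fin a, Fin (i.val + 1)

lemma card_idx (a : ℕ) : Fintype.card (Idx a) = (a + 1).choose 2 := by
  rw [Fintype.card_sigma]
  simp only [Fintype.card_fin]
  rw [Fin.sum_univ_eq_sum_range (fun i => i + 1) a]
  induction a with
  | zero => simp
  | succ n ih => rw [Finset.sum_range_succ, ih, Nat.choose_succ_succ (n + 1) 1]; simp; omega

instance finite_hom (n : ℕ) : Module.Finite k (homogeneousSubmodule (Fin 3) k n) :=
  Module.Finite.iff_fg.2 (homogeneousSubmodule_fg (Fin 3) k n)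

lemma finrank_hom_ge (n : ℕ) :
    (n + 2).choose 2 ≤ Module.finrank k (homogeneousSubmodule (Fin 3) k n) := by
  classical
  rw [← card_idx (n + 1)]
  let g : Idx (n + 1) → (Fin 3 →₀ ℕ) := fun x => ex x.2.val (x.1.val - x.2.val) (n - x.1.val)
  have hg : Function.Injective g := by
    rintro ⟨i, j⟩ ⟨i', j'⟩ h
    have e := ex_apply j.val (i.val - j.val) (n - i.val)
    have e' := ex_apply j'.val (i'.val - j'.val) (n - i'.val)
    have h' : ex j.val (i.val - j.val) (n - i.val) = ex j'.val (i'.val - j'.val) (n - i'.val) := h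
    rw [h'] at e
    obtain ⟨e1, e2, e3⟩ := e
    obtain ⟨e1', e2', e3'⟩ := e'
    have hi := i.2
    have hi' := i'.2
    have hj := j.2
    have hj' := j'.2
    have : i = i' := by
      apply Fin.ext; omega
    subst this
    have : j = j' := by
      apply Fin.ext; omega
    subst this
    rfl
  have hmem : ∀ x : Idx (n + 1), (monomial (g x) (1 : k)) ∈ homogeneousSubmodule (Fin 3) k n := by
    intro x
    apply isHomogeneous_monomial
    have hi := x.1.2
    have hj := x.2.2
    simp only [g, ex, map_add, Finsupp.degree_single]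
    omega
  have hli : LinearIndependent k
      (fun x : Idx (n + 1) => (⟨monomial (g x) (1 : k), hmem x⟩ :
        homogeneousSubmodule (Fin 3) k n)) := by
    apply LinearIndependent.of_comp (homogeneousSubmodule (Fin 3) k n).subtype
    have := (basisMonomials (Fin 3) k).linearIndependent.comp g hg
    convert this using 1
    ext1 x
    simp
  exact hli.fintype_card_le_finrank

lemma H0_coe (p : Fin r → Fin 3 → k) (n : ℕ) (a : Fin r → ℕ) :
    H0 p ((n : ℤ), fun i => (a i : ℤ)) =
      homogeneousSubmodule (Fin 3) k n ⊓ ⨅ i, ((pointIdeal (p i)) ^ (a i)).restrictScalars k := by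
  simp [H0]

lemma mem_H0_coe (p : Fin r → Fin 3 → k) (n : ℕ) (a : Fin r → ℕ) (F : MvPolynomial (Fin 3) k) :
    F ∈ H0 p ((n : ℤ), fun i => (a i : ℤ)) ↔
      F.IsHomogeneous n ∧ ∀ i, F ∈ (pointIdeal (p i)) ^ (a i) := by
  rw [H0_coe]
  simp [Submodule.mem_inf, Submodule.mem_iInf]

lemma H0_le (p : Fin r → Fin 3 → k) (D : Cls r) :
    H0 p D ≤ homogeneousSubmodule (Fin 3) k D.1.toNat := by
  unfold H0
  split_ifs
  · exact inf_le_left
  · exact bot_le

instance finite_H0 (p : Fin r → Fin 3 → k) (D : Cls r) : Module.Finite k (H0 p D) :=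
  Submodule.finiteDimensional_of_le (H0_le p D)

lemma H0_ge (u v : Fin r → k) (n : ℕ) (a : Fin r → ℕ) :
    (n + 2).choose 2 ≤
      Module.finrank k (H0 (fun i => ![u i, v i, 1]) ((n : ℤ), fun i => (a i : ℤ)))
        + ∑ i, (a i + 1).choose 2 := by
  classical
  let f : homogeneousSubmodule (Fin 3) k n →ₗ[k] ((Σ i, Idx (a i)) → k) :=
    LinearMap.pi fun x =>
      (lcoeff k (ex x.2.2.val (x.2.1.val - x.2.2.val) (n - x.2.1.val))).comp
        ((trans (u x.1) (v x.1)).toLinearMap.comp (homogeneousSubmodule (Fin 3) k n).subtype)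
  have h1 := LinearMap.finrank_range_add_finrank_ker f
  have h2 : Module.finrank k (LinearMap.range f) ≤ ∑ i, (a i + 1).choose 2 := by
    refine (Submodule.finrank_le _).trans ?_
    rw [Module.finrank_fintype_fun_eq_card, Fintype.card_sigma]
    simp only [card_idx]
    exact le_refl _
  have h3 : Module.finrank k (LinearMap.ker f) ≤
      Module.finrank k (H0 (fun i => ![u i, v i, 1]) ((n : ℤ), fun i => (a i : ℤ))) := by
    have : Submodule.map (homogeneousSubmodule (Fin 3) k n).subtype (LinearMap.ker f) ≤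
        H0 (fun i => ![u i, v i, 1]) ((n : ℤ), fun i => (a i : ℤ)) := by
      rintro _ ⟨F, hF, rfl⟩
      rw [mem_H0_coe]
      refine ⟨F.2, fun i => ?_⟩
      apply mem_pow_of_coeff (u i) (v i) (n := n) F.2
      intro b c hcb hba
      have := congrFun (LinearMap.mem_ker.1 hF) ⟨i, ⟨⟨b, hba⟩, ⟨c, by simpa using Nat.lt_succ_of_le hcb⟩⟩⟩
      simpa [f, lcoeff] using this
    have h4 := Submodule.finrank_mono this
    rwa [Submodule.finrank_map_subtype_eq] at h4
  have h4 := finrank_hom_ge (k := k) n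
  omega

end Count

lemma key_choose (x : ℕ) : 2 * ((x + 1).choose 2 : ℤ) = (x + 1) * x := by
  have h2 : (x + 1).choose 2 * 2 = (x + 1) * x := by
    rw [Nat.choose_two_right]
    have := Nat.even_mul_pred_self (x + 1)
    simpa using Nat.div_mul_cancel this.two_dvd
  have : (((x + 1).choose 2 * 2 : ℕ) : ℤ) = (((x + 1) * x : ℕ) : ℤ) := by rw [h2]
  push_cast at this
  linarith

/-- For `d = n ≥ 0` and `mᵢ = aᵢ ≥ 0` the number `h1` is the
superabundance of the system, i.e. the number by which the conditions imposed by the fat points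
`aᵢpᵢ` on forms of degree `n` fail to be independent. -/
lemma h1_eq_superabundance (p : Fin r → Fin 3 → k) (n : ℕ) (a : Fin r → ℕ) :
    h1 p ((n : ℤ), fun i => (a i : ℤ)) =
      Module.finrank k (H0 p ((n : ℤ), fun i => (a i : ℤ))) -
        (((n + 2).choose 2 : ℤ) - ∑ i, ((a i + 1).choose 2 : ℤ)) := by
  have e0 : h0 p (canon r - ((n : ℤ), fun i => (a i : ℤ))) = 0 := by
    unfold h0 H0
    have : ¬ (0 : ℤ) ≤ (canon r - ((n : ℤ), fun i => (a i : ℤ))).1 := by
      simp [canon]; omega
    rw [if_neg this]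
    simp
  have k1 := key_choose (n + 1)
  have k2 : 2 * ∑ i, ((a i + 1).choose 2 : ℤ) = ∑ i, ((a i : ℤ) + 1) * a i := by
    rw [Finset.mul_sum]
    exact Finset.sum_congr rfl fun i _ => key_choose (a i)
  have e1 : inter ((n : ℤ), fun i => (a i : ℤ)) (((n : ℤ), fun i => (a i : ℤ)) - canon r) =
      2 * (((n + 2).choose 2 : ℤ) - ∑ i, ((a i + 1).choose 2 : ℤ) - 1) := by
    have : inter ((n : ℤ), fun i => (a i : ℤ)) (((n : ℤ), fun i => (a i : ℤ)) - canon r) =
        (n : ℤ) * (n + 3) - ∑ i, ((a i : ℤ) + 1) * a i := by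
      simp only [inter, canon, Prod.fst_sub, Prod.snd_sub, Pi.sub_apply, sub_neg_eq_add]
      congr 1
      exact Finset.sum_congr rfl fun i _ => by ring
    rw [this, ← k2]
    push_cast at k1
    linear_combination -k1
  unfold h1 chi
  rw [e0, e1, Int.mul_ediv_cancel_left _ (by norm_num)]
  unfold h0
  ring

lemma mem_H0 (p : Fin r → Fin 3 → k) (D : Cls r) (F : MvPolynomial (Fin 3) k) (hF0 : F ≠ 0) :
    F ∈ H0 p D ↔ 0 ≤ D.1 ∧ F.IsHomogeneous D.1.toNat ∧
      ∀ i, F ∈ (pointIdeal (p i)) ^ (D.2 i).toNat := by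
  unfold H0
  split_ifs with h
  · simp [Submodule.mem_inf, Submodule.mem_iInf, h]
  · simp [hF0, h]


/-! ### The grid -/

section Grid

variable (a : Fin 4 → k)

/-- the grid points `(aᵢ : aⱼ : 1)` -/
def gp (x : Fin 4 × Fin 4) : Fin 3 → k := ![a x.1, a x.2, 1]

/-- the sixteen points, indexed by `Fin 16` -/
def grid : Fin 16 → Fin 3 → k := fun s => gp a (finProdFinEquiv.symm (s : Fin (4 * 4)))

lemma grid_gp (s : Fin 16) : grid a s = gp a (finProdFinEquiv.symm (s : Fin (4 * 4))) := rfl

lemma gp_grid (x : Fin 4 × Fin 4) : ∃ s : Fin 16, grid a s = gp a x :=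
  ⟨(finProdFinEquiv x : Fin (4 * 4)), by rw [grid_gp, Equiv.symm_apply_apply]⟩

lemma grid_distinct (ha : Function.Injective a) : DistinctPoints (grid a) := by
  refine ⟨?_, ?_⟩
  · intro i h
    have := congrFun h 2
    simp [grid, gp] at this
  · intro i j hij c hc
    have h2 := congrFun hc 2
    have h0 := congrFun hc 0
    have h1 := congrFun hc 1
    simp only [grid, gp, Pi.smul_apply, smul_eq_mul, Matrix.cons_val_zero, Matrix.cons_val_one,
      Matrix.cons_val] at h2 h0 h1
    rw [mul_one] at h2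
    rw [← h2, one_mul] at h0 h1
    apply hij
    apply (finProdFinEquiv (m := 4) (n := 4)).symm.injective
    exact Prod.ext (ha h0) (ha h1)

/-- the product of the four lines `x₀ = aᵢx₂` -/
noncomputable def FF : MvPolynomial (Fin 3) k := ∏ i, (X 0 - C (a i) * X 2)

/-- the product of the four lines `x₁ = aᵢx₂` -/
noncomputable def GG : MvPolynomial (Fin 3) k := ∏ i, (X 1 - C (a i) * X 2)

lemma FF_hom : (FF a).IsHomogeneous 4 := by
  have : (FF a).IsHomogeneous (∑ _j : Fin 4, 1) := by
    apply IsHomogeneous.prod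
    intro i _
    exact (isHomogeneous_X _ _).sub (isHomogeneous_C_mul_X _ _)
  simpa using this

lemma GG_hom : (GG a).IsHomogeneous 4 := by
  have : (GG a).IsHomogeneous (∑ _j : Fin 4, 1) := by
    apply IsHomogeneous.prod
    intro i _
    exact (isHomogeneous_X _ _).sub (isHomogeneous_C_mul_X _ _)
  simpa using this

lemma FF_mem (x : Fin 4 × Fin 4) : FF a ∈ pointIdeal (gp a x) := by
  rw [FF, Finset.prod_eq_mul_prod_sdiff_singleton_of_mem (Finset.mem_univ x.1)]
  apply Ideal.mul_mem_right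
  exact lin0_mem (gp a x) (by simp [gp])

lemma GG_mem (x : Fin 4 × Fin 4) : GG a ∈ pointIdeal (gp a x) := by
  rw [GG, Finset.prod_eq_mul_prod_sdiff_singleton_of_mem (Finset.mem_univ x.2)]
  apply Ideal.mul_mem_right
  exact lin1_mem (gp a x) (by simp [gp])

/-! #### Six quintics through the grid -/

/-- the six quintic forms `x_i F`, `x_i G` -/
noncomputable def quint : Fin 3 ⊕ Fin 3 → MvPolynomial (Fin 3) k :=
  Sum.elim (fun i => X i * FF a) (fun i => X i * GG a)

lemma quint_mem (x : Fin 3 ⊕ Fin 3) : quint a x ∈ H0 (grid a) (5, fun _ => 1) := by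
  have : H0 (grid a) ((5 : ℕ), fun _ => ((1 : ℕ) : ℤ)) = H0 (grid a) (5, fun _ => 1) := by
    norm_num
  rw [← this, show ((fun _ => ((1 : ℕ) : ℤ)) : Fin 16 → ℤ) =
    fun i => (((fun _ => 1) : Fin 16 → ℕ) i : ℤ) from rfl, mem_H0_coe]
  rcases x with i | i
  · refine ⟨(isHomogeneous_X _ _).mul (FF_hom a), fun s => ?_⟩
    rw [pow_one, grid_gp]
    exact Ideal.mul_mem_left _ _ (FF_mem a _)
  · refine ⟨(isHomogeneous_X _ _).mul (GG_hom a), fun s => ?_⟩
    rw [pow_one, grid_gp]
    exact Ideal.mul_mem_left _ _ (GG_mem a _)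

/-- Specialising `x₀ = T, x₁ = S` : independence of the six quintics. -/
lemma quint_li : LinearIndependent k (quint a) := by
  classical
  rw [Fintype.linearIndependent_iff]
  intro c hc
  rw [Fintype.sum_sum_type] at hc
  simp only [quint, Sum.elim_inl, Sum.elim_inr, Fin.sum_univ_three, smul_eq_C_mul] at hc
  -- restrict to the line x₂ = 0
  let h : MvPolynomial (Fin 3) k →ₐ[k] MvPolynomial (Fin 3) k := aeval ![X 0, X 1, 0]
  have e1 := congrArg h hc
  simp only [map_add, map_mul, map_zero, FF, GG, map_prod, map_sub, h, aeval_X, aeval_C,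
    Matrix.cons_val_zero, Matrix.cons_val_one, Matrix.cons_val, mul_zero, sub_zero,
    Finset.prod_const, Finset.card_univ, Fintype.card_fin, zero_mul, add_zero,
    algebraMap_eq] at e1
  have e1' : C (c (Sum.inl 0)) * X 0 ^ 5 + C (c (Sum.inl 1)) * (X 1 * X 0 ^ 4) +
      C (c (Sum.inr 0)) * (X 0 * X 1 ^ 4) + C (c (Sum.inr 1)) * X 1 ^ 5 =
      (0 : MvPolynomial (Fin 3) k) := by
    rw [← e1]; ring
  have key : ∀ s : Fin 3 →₀ ℕ, coeff s (C (c (Sum.inl 0)) * X 0 ^ 5 +
      C (c (Sum.inl 1)) * (X 1 * X 0 ^ 4) +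
      C (c (Sum.inr 0)) * (X 0 * X 1 ^ 4) + C (c (Sum.inr 1)) * X 1 ^ 5) = (0 : k) := by
    intro s; rw [e1', coeff_zero]
  have m1 : (X 0 ^ 5 : MvPolynomial (Fin 3) k) = monomial (Finsupp.single 0 5) 1 :=
    X_pow_eq_monomial
  have m2 : (X 1 * X 0 ^ 4 : MvPolynomial (Fin 3) k) =
      monomial (Finsupp.single 1 1 + Finsupp.single 0 4) 1 := by
    rw [X_pow_eq_monomial, X, monomial_mul, mul_one]
  have m3 : (X 0 * X 1 ^ 4 : MvPolynomial (Fin 3) k) =
      monomial (Finsupp.single 0 1 + Finsupp.single 1 4) 1 := by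
    rw [X_pow_eq_monomial, X, monomial_mul, mul_one]
  have m4 : (X 1 ^ 5 : MvPolynomial (Fin 3) k) = monomial (Finsupp.single 1 5) 1 :=
    X_pow_eq_monomial
  rw [m1, m2, m3, m4] at key
  simp only [coeff_add, coeff_C_mul, coeff_monomial] at key
  have d12 : (Finsupp.single 0 5 : Fin 3 →₀ ℕ) ≠ Finsupp.single 1 1 + Finsupp.single 0 4 := by
    intro h; have := DFunLike.congr_fun h 1; simp at this
  have d13 : (Finsupp.single 0 5 : Fin 3 →₀ ℕ) ≠ Finsupp.single 0 1 + Finsupp.single 1 4 := by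
    intro h; have := DFunLike.congr_fun h 1; simp at this
  have d14 : (Finsupp.single 0 5 : Fin 3 →₀ ℕ) ≠ Finsupp.single 1 5 := by
    intro h; have := DFunLike.congr_fun h 1; simp at this
  have d23 : (Finsupp.single 1 1 + Finsupp.single 0 4 : Fin 3 →₀ ℕ) ≠
      Finsupp.single 0 1 + Finsupp.single 1 4 := by
    intro h; have := DFunLike.congr_fun h 1; simp at this
  have d24 : (Finsupp.single 1 1 + Finsupp.single 0 4 : Fin 3 →₀ ℕ) ≠ Finsupp.single 1 5 := by
    intro h; have := DFunLike.congr_fun h 1; simp at this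
  have d34 : (Finsupp.single 0 1 + Finsupp.single 1 4 : Fin 3 →₀ ℕ) ≠ Finsupp.single 1 5 := by
    intro h; have := DFunLike.congr_fun h 1; simp at this
  have z1 : c (Sum.inl 0) = 0 := by
    have := key (Finsupp.single 0 5)
    simpa [d12, d13, d14, d12.symm, d13.symm, d14.symm] using this
  have z2 : c (Sum.inl 1) = 0 := by
    have := key (Finsupp.single 1 1 + Finsupp.single 0 4)
    simpa [d12, d23, d24, d12.symm, d23.symm, d24.symm] using this
  have z3 : c (Sum.inr 0) = 0 := by
    have := key (Finsupp.single 0 1 + Finsupp.single 1 4)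
    simpa [d13, d23, d34, d13.symm, d23.symm, d34.symm] using this
  have z4 : c (Sum.inr 1) = 0 := by
    have := key (Finsupp.single 1 5)
    simpa [d14, d24, d34, d14.symm, d24.symm, d34.symm] using this
  rw [z1, z2, z3, z4] at hc
  simp only [C_0, zero_mul, zero_add] at hc
  -- cancel x₂ and restrict to x₂ = 0 again
  have e2 : X 2 * (C (c (Sum.inl 2)) * FF a + C (c (Sum.inr 2)) * GG a) = 0 := by
    rw [← hc]
    simp only [FF, GG]
    ring
  have e3 := (mul_eq_zero.1 e2).resolve_left (X_ne_zero 2)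
  have e4 := congrArg h e3
  simp only [map_add, map_mul, map_zero, FF, GG, map_prod, map_sub, h, aeval_X, aeval_C,
    Matrix.cons_val_zero, Matrix.cons_val_one, Matrix.cons_val, mul_zero, sub_zero,
    Finset.prod_const, Finset.card_univ, Fintype.card_fin, algebraMap_eq] at e4
  have m5 : (X 0 ^ 4 : MvPolynomial (Fin 3) k) = monomial (Finsupp.single 0 4) 1 :=
    X_pow_eq_monomial
  have m6 : (X 1 ^ 4 : MvPolynomial (Fin 3) k) = monomial (Finsupp.single 1 4) 1 :=
    X_pow_eq_monomial
  rw [m5, m6] at e4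
  have d56 : (Finsupp.single 0 4 : Fin 3 →₀ ℕ) ≠ Finsupp.single 1 4 := by
    intro h; have := DFunLike.congr_fun h 1; simp at this
  have z5 : c (Sum.inl 2) = 0 := by
    have := congrArg (coeff (Finsupp.single 0 4)) e4
    simpa [coeff_C_mul, coeff_monomial, d56, d56.symm] using this
  have z6 : c (Sum.inr 2) = 0 := by
    have := congrArg (coeff (Finsupp.single 1 4)) e4
    simpa [coeff_C_mul, coeff_monomial, d56, d56.symm] using this
  rintro (i | i)
  · fin_cases i
    · exact z1
    · exact z2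
    · exact z5
  · fin_cases i
    · exact z3
    · exact z4
    · exact z6

lemma six_le : 6 ≤ Module.finrank k (H0 (grid a) (5, fun _ => 1)) := by
  have hli : LinearIndependent k
      (fun x => (⟨quint a x, quint_mem a x⟩ : H0 (grid a) (5, fun _ => 1))) := by
    apply LinearIndependent.of_comp (H0 (grid a) (5, fun _ => 1)).subtype
    exact quint_li a
  have := hli.fintype_card_le_finrank
  simpa using this

/-! #### Curves of degree 10 with double points at the grid -/

/-- dehomogenisation -/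
noncomputable def deh : MvPolynomial (Fin 3) k →ₐ[k] MvPolynomial (Fin 2) k :=
  aeval ![X 0, X 1, 1]

lemma hom_deg {G : MvPolynomial (Fin 3) k} {n : ℕ} (hG : G.IsHomogeneous n) {s : Fin 3 →₀ ℕ}
    (hs : s ∈ G.support) : s 0 + s 1 + s 2 = n := by
  have := hG (mem_support_iff.1 hs)
  rw [Finsupp.weight_apply, Finsupp.sum_fintype _ _ (by simp)] at this
  simp [Fin.sum_univ_three] at this
  exact this

lemma deh_monomial (s : Fin 3 →₀ ℕ) (c : k) :
    deh (monomial s c) = monomial (Finsupp.single 0 (s 0) + Finsupp.single 1 (s 1)) c := by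
  rw [deh, aeval_monomial, Finsupp.prod_fintype _ _ (by simp)]
  rw [monomial_eq, Finsupp.prod_fintype _ _ (by simp)]
  simp [Fin.prod_univ_three, Fin.prod_univ_two]

lemma deh_inj {G : MvPolynomial (Fin 3) k} {n : ℕ} (hG : G.IsHomogeneous n) (h : deh G = 0) :
    G = 0 := by
  classical
  ext s
  by_cases hs : s ∈ G.support
  · have h1 : deh G = ∑ t ∈ G.support, deh (monomial t (coeff t G)) := by
      conv_lhs => rw [G.as_sum]
      rw [map_sum]
    rw [h] at h1
    have h2 := congrArg (coeff (Finsupp.single 0 (s 0) + Finsupp.single 1 (s 1))) h1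
    rw [coeff_zero, coeff_sum, Finset.sum_eq_single s] at h2
    · rw [deh_monomial, coeff_monomial, if_pos rfl] at h2
      rw [← h2, coeff_zero]
    · intro t ht hts
      rw [deh_monomial, coeff_monomial, if_neg]
      intro heq
      apply hts
      have e0 := DFunLike.congr_fun heq 0
      have e1 := DFunLike.congr_fun heq 1
      simp at e0 e1
      have b1 := hom_deg hG ht
      have b2 := hom_deg hG hs
      ext i
      fin_cases i <;> simp <;> omega
    · intro h'; exact absurd hs h'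
  · rw [notMem_support_iff.1 hs, coeff_zero]

lemma deh_deg {G : MvPolynomial (Fin 3) k} {n : ℕ} (hG : G.IsHomogeneous n) :
    (deh G).totalDegree ≤ n := by
  classical
  rw [G.as_sum, map_sum]
  apply totalDegree_finsetSum_le
  intro s hs
  rw [deh_monomial]
  refine (totalDegree_monomial_le _ _).trans ?_
  have := hom_deg hG hs
  rw [Finsupp.sum_fintype _ _ (by simp)]
  simp [Fin.sum_univ_two]
  omega

/-- product of the four lines `X i = a j` in the affine plane -/
noncomputable def lp (i : Fin 2) : MvPolynomial (Fin 2) k := ∏ j, (X i - C (a j))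

lemma td_lin (i : Fin 2) (c : k) : (X i - C c : MvPolynomial (Fin 2) k).totalDegree = 1 := by
  rw [sub_eq_add_neg, ← C_neg, totalDegree_add_eq_left_of_totalDegree_lt, totalDegree_X]
  rw [totalDegree_C, totalDegree_X]
  exact one_pos

lemma lin_ne_zero (i : Fin 2) (c : k) : (X i - C c : MvPolynomial (Fin 2) k) ≠ 0 := by
  intro h
  have := td_lin i c
  rw [h, totalDegree_zero] at this
  exact zero_ne_one this

lemma td_lp (i : Fin 2) : (lp a i).totalDegree = 4 := by
  rw [lp, Fin.prod_univ_four]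
  have n0 := lin_ne_zero i (a 0)
  have n1 := lin_ne_zero i (a 1)
  have n2 := lin_ne_zero i (a 2)
  have n3 := lin_ne_zero i (a 3)
  rw [totalDegree_mul_of_isDomain (mul_ne_zero (mul_ne_zero n0 n1) n2) n3,
    totalDegree_mul_of_isDomain (mul_ne_zero n0 n1) n2, totalDegree_mul_of_isDomain n0 n1,
    td_lin, td_lin, td_lin, td_lin]

lemma lp_ne_zero (i : Fin 2) : lp a i ≠ 0 := by
  intro h
  have := td_lp a i
  rw [h, totalDegree_zero] at this
  omega

/-- A polynomial of degree at most `n + 4` vanishing on the grid is `α F + β G` with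
`deg α, deg β ≤ n`. -/
lemma grid_division (ha : Function.Injective a) {n : ℕ} {g : MvPolynomial (Fin 2) k}
    (hg : g.totalDegree ≤ n + 4) (hv : ∀ i j, eval ![a i, a j] g = 0) :
    ∃ α β : MvPolynomial (Fin 2) k, α.totalDegree ≤ n ∧ β.totalDegree ≤ n ∧
      g = α * lp a 0 + β * lp a 1 := by
  classical
  obtain ⟨h, hdeg, hh⟩ := combinatorial_nullstellensatz_exists_linearCombination
    (fun _ : Fin 2 => Finset.univ.image a) (fun _ => ⟨a 0, by simp⟩) g (by
      intro x hx
      simp only [Finset.mem_image, Finset.mem_univ, true_and] at hx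
      obtain ⟨i, hi⟩ := hx 0
      obtain ⟨j, hj⟩ := hx 1
      have : x = ![a i, a j] := by
        ext s; fin_cases s
        · exact hi.symm
        · exact hj.symm
      rw [this]; exact hv i j)
  have hprod : ∀ i : Fin 2, (∏ s ∈ Finset.univ.image a, (X i - C s) : MvPolynomial (Fin 2) k) =
      lp a i := by
    intro i
    rw [Finset.prod_image (fun x _ y _ h => ha h), lp]
  simp only [hprod] at hdeg hh
  refine ⟨h 0, h 1, ?_, ?_, ?_⟩
  · by_cases h0 : h 0 = 0
    · rw [h0, totalDegree_zero]; exact Nat.zero_le _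
    · have := (hdeg 0).trans hg
      rw [totalDegree_mul_of_isDomain (lp_ne_zero a 0) h0, td_lp] at this
      omega
  · by_cases h0 : h 1 = 0
    · rw [h0, totalDegree_zero]; exact Nat.zero_le _
    · have := (hdeg 1).trans hg
      rw [totalDegree_mul_of_isDomain (lp_ne_zero a 1) h0, td_lp] at this
      omega
  · rw [hh, Finsupp.linearCombination_apply, Finsupp.sum_fintype _ _ (by simp), Fin.sum_univ_two]
    simp only [smul_eq_mul]

/-- arcs through the grid point `(aᵢ, aⱼ)` -/
noncomputable def arc (i j : Fin 4) (c d : k) : MvPolynomial (Fin 2) k →ₐ[k] Polynomial k :=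
  aeval ![Polynomial.C (a i) + Polynomial.C c * Polynomial.X,
    Polynomial.C (a j) + Polynomial.C d * Polynomial.X]

lemma arc_sq {f : MvPolynomial (Fin 3) k} (i j : Fin 4) (c d : k)
    (hf : f ∈ pointIdeal (gp a (i, j)) ^ 2) : Polynomial.X ^ 2 ∣ arc a i j c d (deh f) := by
  have h1 : Ideal.map ((arc a i j c d).comp deh) (pointIdeal (gp a (i, j))) ≤
      Ideal.span {Polynomial.X} := by
    rw [pointIdeal, Ideal.map_span, Ideal.span_le]
    rintro _ ⟨_, ⟨⟨u, v⟩, rfl⟩, rfl⟩
    rw [SetLike.mem_coe, Ideal.mem_span_singleton, Polynomial.X_dvd_iff,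
      Polynomial.coeff_zero_eq_eval_zero]
    fin_cases u <;> fin_cases v <;> simp [arc, deh, gp] <;> ring
  have h2 := Ideal.mem_map_of_mem ((arc a i j c d).comp deh) hf
  rw [Ideal.map_pow] at h2
  have h3 := Ideal.pow_right_mono h1 2 h2
  rw [Ideal.span_singleton_pow, Ideal.mem_span_singleton] at h3
  exact h3

lemma arc_eval (i j : Fin 4) (c d : k) (g : MvPolynomial (Fin 2) k) :
    (arc a i j c d g).coeff 0 = eval ![a i, a j] g := by
  rw [Polynomial.coeff_zero_eq_eval_zero, ← Polynomial.coe_evalRingHom]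
  have : (Polynomial.evalRingHom (0 : k)).comp (arc a i j c d).toRingHom = eval ![a i, a j] := by
    apply MvPolynomial.ringHom_ext
    · intro x; simp [arc]
    · intro s; fin_cases s <;> simp [arc]
  exact DFunLike.congr_fun this g

lemma arc_lp0 (ha : Function.Injective a) (i j : Fin 4) :
    ∃ U : Polynomial k, U.coeff 0 ≠ 0 ∧ arc a i j 1 0 (lp a 0) = Polynomial.X * U := by
  refine ⟨∏ l ∈ Finset.univ \ {i}, (Polynomial.C (a i - a l) + Polynomial.X), ?_, ?_⟩
  · rw [Polynomial.coeff_zero_eq_eval_zero, Polynomial.eval_prod, Finset.prod_ne_zero_iff]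
    intro l hl
    simp only [Finset.mem_sdiff, Finset.mem_univ, Finset.mem_singleton, true_and] at hl
    simpa using sub_ne_zero.2 (fun h => hl (ha h).symm)
  · rw [lp, map_prod, Finset.prod_eq_mul_prod_sdiff_singleton_of_mem (Finset.mem_univ i)]
    congr 1
    · simp [arc]
    · apply Finset.prod_congr rfl
      intro l _
      simp [arc]
      ring

lemma arc_lp0' (i j : Fin 4) (c : k) : arc a i j c 0 (lp a 1) = 0 := by
  rw [lp, map_prod]
  apply Finset.prod_eq_zero (Finset.mem_univ j)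
  simp [arc]

lemma arc_lp1 (ha : Function.Injective a) (i j : Fin 4) :
    ∃ U : Polynomial k, U.coeff 0 ≠ 0 ∧ arc a i j 0 1 (lp a 1) = Polynomial.X * U := by
  refine ⟨∏ l ∈ Finset.univ \ {j}, (Polynomial.C (a j - a l) + Polynomial.X), ?_, ?_⟩
  · rw [Polynomial.coeff_zero_eq_eval_zero, Polynomial.eval_prod, Finset.prod_ne_zero_iff]
    intro l hl
    simp only [Finset.mem_sdiff, Finset.mem_univ, Finset.mem_singleton, true_and] at hl
    simpa using sub_ne_zero.2 (fun h => hl (ha h).symm)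
  · rw [lp, map_prod, Finset.prod_eq_mul_prod_sdiff_singleton_of_mem (Finset.mem_univ j)]
    congr 1
    · simp [arc]
    · apply Finset.prod_congr rfl
      intro l _
      simp [arc]
      ring

lemma arc_lp1' (i j : Fin 4) (c : k) : arc a i j 0 c (lp a 0) = 0 := by
  rw [lp, map_prod]
  apply Finset.prod_eq_zero (Finset.mem_univ i)
  simp [arc]

lemma coeff_zero_of_sq_dvd {A U : Polynomial k} (hU : U.coeff 0 ≠ 0)
    (h : Polynomial.X ^ 2 ∣ A * (Polynomial.X * U)) : A.coeff 0 = 0 := by
  have h1 : Polynomial.X * Polynomial.X ∣ Polynomial.X * (A * U) := by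
    rw [← sq]
    convert h using 1
    ring
  have h2 := (mul_dvd_mul_iff_left Polynomial.X_ne_zero).1 h1
  rw [Polynomial.X_dvd_iff, Polynomial.mul_coeff_zero] at h2
  exact (mul_eq_zero.1 h2).resolve_right hU

/-- degree-10 curves with double points at the grid points lie in `(F, G)²` -/
lemma double_structure (ha : Function.Injective a) {f : MvPolynomial (Fin 3) k}
    (hf : f.IsHomogeneous 10) (hm : ∀ x, f ∈ pointIdeal (gp a x) ^ 2) :
    ∃ α β γ : MvPolynomial (Fin 2) k, α.totalDegree ≤ 2 ∧ β.totalDegree ≤ 2 ∧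
      γ.totalDegree ≤ 2 ∧
      deh f = α * lp a 0 ^ 2 + β * (lp a 0 * lp a 1) + γ * lp a 1 ^ 2 := by
  have hv : ∀ i j, eval ![a i, a j] (deh f) = 0 := by
    intro i j
    rw [← arc_eval a i j 0 0]
    have := arc_sq a i j 0 0 (hm (i, j))
    exact Polynomial.X_pow_dvd_iff.1 this 0 (by norm_num)
  obtain ⟨α, β, hα, hβ, h⟩ := grid_division a ha (n := 6) (deh_deg hf) hv
  have hα0 : ∀ i j, eval ![a i, a j] α = 0 := by
    intro i j
    have h1 := arc_sq a i j 1 0 (hm (i, j))
    obtain ⟨U, hU, hUe⟩ := arc_lp0 a ha i j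
    rw [h, map_add, map_mul, map_mul, arc_lp0', mul_zero, add_zero, hUe] at h1
    rw [← arc_eval a i j 1 0]
    exact coeff_zero_of_sq_dvd hU h1
  have hβ0 : ∀ i j, eval ![a i, a j] β = 0 := by
    intro i j
    have h1 := arc_sq a i j 0 1 (hm (i, j))
    obtain ⟨U, hU, hUe⟩ := arc_lp1 a ha i j
    rw [h, map_add, map_mul, map_mul, arc_lp1', mul_zero, zero_add, hUe] at h1
    rw [← arc_eval a i j 0 1]
    exact coeff_zero_of_sq_dvd hU h1
  obtain ⟨α1, α2, h1, h2, hαe⟩ := grid_division a ha (n := 2) hα hα0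
  obtain ⟨β1, β2, h3, h4, hβe⟩ := grid_division a ha (n := 2) hβ hβ0
  refine ⟨α1, α2 + β1, β2, h1, (totalDegree_add _ _).trans (max_le h2 h3), h4, ?_⟩
  rw [h, hαe, hβe]
  ring

/-- the eighteen products -/
noncomputable def gen (x : Fin 3 × Idx 3) : MvPolynomial (Fin 2) k :=
  monomial (Finsupp.single 0 x.2.2.val + Finsupp.single 1 (x.2.1.val - x.2.2.val)) 1 *
    ![lp a 0 ^ 2, lp a 0 * lp a 1, lp a 1 ^ 2] x.1

lemma mul_mem_span (c : Fin 3) {γ : MvPolynomial (Fin 2) k} (hγ : γ.totalDegree ≤ 2) :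
    γ * ![lp a 0 ^ 2, lp a 0 * lp a 1, lp a 1 ^ 2] c ∈ Submodule.span k (Set.range (gen a)) := by
  classical
  rw [γ.as_sum, Finset.sum_mul]
  apply Submodule.sum_mem
  intro s hs
  have hd : s 0 + s 1 ≤ 2 := by
    have := le_totalDegree hs
    rw [Finsupp.sum_fintype _ _ (by simp), Fin.sum_univ_two] at this
    exact this.trans hγ
  have : (monomial s (coeff s γ) : MvPolynomial (Fin 2) k) *
      ![lp a 0 ^ 2, lp a 0 * lp a 1, lp a 1 ^ 2] c =
      coeff s γ • gen a (c, ⟨⟨s 0 + s 1, by omega⟩, ⟨s 0, by simp only; omega⟩⟩) := by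
    have hs' : (Finsupp.single 0 (s 0) + Finsupp.single 1 (s 0 + s 1 - s 0) : Fin 2 →₀ ℕ) = s := by
      ext i
      fin_cases i <;> simp
    simp only [gen]
    rw [hs', ← smul_mul_assoc, smul_monomial, smul_eq_mul, mul_one]
  rw [this]
  exact Submodule.smul_mem _ _ (Submodule.subset_span ⟨_, rfl⟩)

lemma finrank_double_le (ha : Function.Injective a) :
    Module.finrank k (H0 (grid a) (((10 : ℕ) : ℤ), fun _ => ((2 : ℕ) : ℤ))) ≤ 18 := by
  classical
  set W := H0 (grid a) (((10 : ℕ) : ℤ), fun _ => ((2 : ℕ) : ℤ)) with hW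
  have hWmem : ∀ f ∈ W, f.IsHomogeneous 10 ∧ ∀ x, f ∈ pointIdeal (gp a x) ^ 2 := by
    intro f hf
    rw [hW, show ((fun _ => ((2 : ℕ) : ℤ)) : Fin 16 → ℤ) =
      fun i => (((fun _ => 2) : Fin 16 → ℕ) i : ℤ) from rfl, mem_H0_coe] at hf
    refine ⟨hf.1, fun x => ?_⟩
    obtain ⟨s, hs⟩ := gp_grid a x
    rw [← hs]
    exact hf.2 s
  have h1 : Submodule.map (deh : MvPolynomial (Fin 3) k →ₐ[k] _).toLinearMap W ≤
      Submodule.span k (Set.range (gen a)) := by
    rintro _ ⟨f, hf, rfl⟩
    obtain ⟨hfh, hfm⟩ := hWmem f hf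
    obtain ⟨α, β, γ, hα, hβ, hγ, he⟩ := double_structure a ha hfh hfm
    rw [AlgHom.toLinearMap_apply, he]
    exact Submodule.add_mem _ (Submodule.add_mem _ (mul_mem_span a 0 hα) (mul_mem_span a 1 hβ))
      (mul_mem_span a 2 hγ)
  have h2 : Module.finrank k (Submodule.span k (Set.range (gen a))) ≤ 18 := by
    have := finrank_range_le_card (R := k) (gen a)
    rw [Fintype.card_prod, card_idx] at this
    exact this
  have : Module.Finite k (Submodule.span k (Set.range (gen a))) :=
    Module.Finite.span_of_finite k (Set.finite_range _)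
  have h3 := Submodule.finrank_mono h1
  have hinj : Function.Injective
      ((deh : MvPolynomial (Fin 3) k →ₐ[k] _).toLinearMap.domRestrict W) := by
    rw [← LinearMap.ker_eq_bot, LinearMap.ker_eq_bot']
    rintro ⟨f, hf⟩ h
    have : deh f = 0 := h
    ext1
    exact deh_inj (hWmem f hf).1 this
  have h4 := LinearMap.finrank_range_of_inj hinj
  rw [LinearMap.range_domRestrict] at h4
  omega

end Grid

/-- Over every algebraically closed field there are sixteen distinct points of the plane such that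
`D = 5H - ∑ Eᵢ` is special but `2D` is not special. -/
theorem result (k : Type*) [Field k] [IsAlgClosed k] :
    ∃ p : Fin 16 → Fin 3 → k, DistinctPoints p ∧
      Special p (5, fun _ => 1) ∧ ¬ Special p ((2 : ℕ) • ((5, fun _ => 1) : Cls 16)) := by
  have : Infinite k := IsAlgClosed.instInfinite
  obtain ⟨a, ha⟩ : ∃ a : Fin 4 → k, Function.Injective a :=
    ⟨fun i => Infinite.natEmbedding k i.val, fun i j h =>
      Fin.ext ((Infinite.natEmbedding k).injective h)⟩
  refine ⟨grid a, grid_distinct a ha, ⟨?_, ?_⟩, ?_⟩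
  · have := six_le a
    unfold h0
    omega
  · have h6 := six_le a
    have h1e := h1_eq_superabundance (grid a) 5 (fun _ => 1)
    have e : (((5 : ℕ) : ℤ), fun i : Fin 16 => (((fun _ => 1) : Fin 16 → ℕ) i : ℤ)) =
        ((5, fun _ => 1) : Cls 16) := by norm_num
    rw [e] at h1e
    rw [h1e]
    norm_num [Nat.choose]
    omega
  · rintro ⟨-, h⟩
    have e : (2 : ℕ) • ((5, fun _ => 1) : Cls 16) =
        (((10 : ℕ) : ℤ), fun i : Fin 16 => (((fun _ => 2) : Fin 16 → ℕ) i : ℤ)) := by
      ext i <;> simp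
    rw [e, h1_eq_superabundance (grid a) 10 (fun _ => 2)] at h
    have h18 := finrank_double_le a ha
    have h18' : Module.finrank k (H0 (grid a)
      (((10 : ℕ) : ℤ), fun i : Fin 16 => (((fun _ => 2) : Fin 16 → ℕ) i : ℤ))) ≤ 18 := h18
    norm_num [Nat.choose] at h
    omega

end Pool.Agent.Results.MP_8481ed_ag.SquareGrid
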